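import Pool.Agent.H94.PX4.M20

/-!
# G4 Simp: closed invariant analytic sets contain no line (simple tori)

`Simp Λ`: the torus `ℂ^(k+1) / Λ` is simple.  `LDi D`: every line meets `D` in isolated points.

`no_line`: `D` is closed and `Λ`-invariant, with `LDi D`; `Z` is analytic in the complement of `D` and invariant under `M Λ`.  If a line is contained in `D ∪ Z` then `Z` contains the complement of `D`.
`ldi_of`: a proper invariant analytic set satisfies `LDi`.

Proof.  (1) If `b + R ⊆ D ∪ Z` for a real subspace `R`, then `b + V ⊆ D ∪ Z`, `V` the complex span of `R` (`cx_span`): a holomorphic function which is `0` on `R` is `0` on `V` near the point, then along lines.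
(2) Let `V ≠ 0` be a maximal complex subspace with `b + V ⊆ D ∪ Z`, `H` the closure of `V + M Λ`: a closed subgroup with `b + H ⊆ D ∪ Z`; the real subspace `R ⊆ H` of all `v` with `ℝ v ⊆ H` is contained in `V` by (1).
So the image of `M Λ` in `ℂ^(k+1) / V` is discrete, `Λ ∩ V` is cocompact in `V` and `V = ⊤` by `Simp`.
-/

set_option autoImplicit false

open Topology Filter Metric

namespace Pool.Agent.G4

open Pool.Agent.AD (Vd)
open Pool.Agent.TG (Lat)

variable {k : ℕ}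

/-- the torus is simple: no complex subspace except `0` and the whole space is spanned over `ℝ` by lattice vectors -/
def Simp (Λ : AddSubgroup (Vd (k + 1))) : Prop :=
  ∀ V : Submodule ℂ (Vd (k + 1)), V ≠ ⊥ → V ≠ ⊤ → Submodule.span ℝ ((Λ : Set (Vd (k + 1))) ∩ V) ≠ V.restrictScalars ℝ

/-- the points of `D` on a line are isolated -/
def LDi (D : Set (Vd (k + 1))) : Prop := ∀ a : Vd (k + 1), a ≠ 0 → ∀ (b : Vd (k + 1)) (z : ℂ), ∀ᶠ w in 𝓝[≠] z, w • a + b ∉ D

/-- a holomorphic function which vanishes at the real points vanishes -/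
private theorem tend : Tendsto (fun n : ℕ => (((1 : ℝ) / ((n : ℝ) + 1) : ℝ) : ℂ)) atTop (𝓝[≠] (0 : ℂ)) := by
  rw [tendsto_nhdsWithin_iff]
  refine ⟨?_, Eventually.of_forall fun n => ?_⟩
  · have h2 := tendsto_one_div_add_atTop_nhds_zero_nat (𝕜 := ℝ)
    have h3 : Tendsto (fun n : ℕ => (((1 : ℝ) / ((n : ℝ) + 1) : ℝ) : ℂ)) atTop (𝓝 ((0 : ℝ) : ℂ)) := (Complex.continuous_ofReal.tendsto (0 : ℝ)).comp h2
    rw [Complex.ofReal_zero] at h3
    exact h3
  · simp only [Set.mem_compl_iff, Set.mem_singleton_iff]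
    have : (0 : ℝ) < 1 / ((n : ℝ) + 1) := by positivity
    exact_mod_cast this.ne'

private theorem zero_of_real {s : ℕ} {F : Type*} [NormedAddCommGroup F] [NormedSpace ℂ F] [CompleteSpace F] {g : (Fin s → ℂ) → F} (hg : AnalyticAt ℂ g 0)
    (h : ∀ᶠ t in 𝓝 (0 : Fin s → ℂ), (∀ i, (t i).im = 0) → g t = 0) : ∀ᶠ t in 𝓝 (0 : Fin s → ℂ), g t = 0 := by
  obtain ⟨r, hr, hb⟩ := Metric.eventually_nhds_iff_ball.1 (hg.eventually_analyticAt.and h)
  have key : ∀ m : ℕ, ∀ t ∈ ball (0 : Fin s → ℂ) r, (∀ j : Fin s, m ≤ (j : ℕ) → (t j).im = 0) → g t = 0 := by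
    intro m
    induction m with
    | zero => exact fun t ht h0 => (hb t ht).2 fun i => h0 i (Nat.zero_le _)
    | succ m ih =>
      intro t ht h0
      by_cases hms : m < s
      · set j : Fin s := ⟨m, hms⟩ with hj
        have htb : ∀ ζ : ℂ, ‖ζ‖ < r → Function.update t j ζ ∈ ball (0 : Fin s → ℂ) r := by
          intro ζ hζ
          rw [mem_ball_zero_iff, pi_norm_lt_iff hr]
          intro i
          by_cases hi : i = j
          · subst hi
            simpa using hζ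
          · rw [Function.update_of_ne hi]
            exact (norm_le_pi_norm t i).trans_lt (mem_ball_zero_iff.1 ht)
        have hup : ∀ ζ : ℂ, AnalyticAt ℂ (fun ζ : ℂ => Function.update t j ζ) ζ := by
          intro ζ
          have h1 : (fun ζ : ℂ => Function.update t j ζ) = fun ζ : ℂ => Function.update t j 0 + ζ • (Pi.single j 1 : Fin s → ℂ) := by
            funext ζ i
            by_cases hi : i = j
            · subst hi
              simp
            · simp [Function.update_of_ne hi, Pi.single_eq_of_ne hi]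
          rw [h1]
          fun_prop
        have han : AnalyticOnNhd ℂ (fun ζ : ℂ => g (Function.update t j ζ)) (ball (0 : ℂ) r) := by
          intro ζ hζ
          exact AnalyticAt.fun_comp (g := g) (f := fun ζ : ℂ => Function.update t j ζ) (hb _ (htb ζ (mem_ball_zero_iff.1 hζ))).1 (hup ζ)
        have hz : ∀ ζ : ℂ, ‖ζ‖ < r → ζ.im = 0 → g (Function.update t j ζ) = 0 := by
          intro ζ hζ him
          refine ih _ (htb ζ hζ) fun i hi => ?_
          by_cases hij : i = j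
          · subst hij
            simpa using him
          · rw [Function.update_of_ne hij]
            refine h0 i ?_
            have : (i : ℕ) ≠ m := fun h => hij (Fin.ext h)
            omega
        have hfr : ∃ᶠ ζ in 𝓝[≠] (0 : ℂ), g (Function.update t j ζ) = 0 := by
          refine tend.frequently (Eventually.frequently ?_)
          have h4 : ∀ᶠ n : ℕ in atTop, (1 : ℝ) / ((n : ℝ) + 1) < r :=
            (tendsto_one_div_add_atTop_nhds_zero_nat (𝕜 := ℝ)).eventually_lt_const hr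
          filter_upwards [h4] with n hn
          refine hz _ ?_ (Complex.ofReal_im _)
          rw [Complex.norm_real, Real.norm_of_nonneg (by positivity)]
          exact hn
        have h0b : (0 : ℂ) ∈ ball (0 : ℂ) r := mem_ball_self hr
        have h5 := AnalyticOnNhd.eqOn_zero_of_preconnected_of_frequently_eq_zero han (convex_ball (0 : ℂ) r).isPreconnected h0b hfr
        have h6 : t j ∈ ball (0 : ℂ) r := by
          rw [mem_ball_zero_iff]
          exact (norm_le_pi_norm t j).trans_lt (mem_ball_zero_iff.1 ht)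
        have h7 := h5 h6
        simpa using h7
      · refine ih t ht fun i hi => ?_
        have := i.2
        omega
  filter_upwards [ball_mem_nhds (0 : Fin s → ℂ) hr] with t ht
  exact key s t ht fun j hj => absurd j.2 (by omega)

/-- a holomorphic function which vanishes on a real subspace vanishes on the complex span -/
private theorem span_zero {F : Type*} [NormedAddCommGroup F] [NormedSpace ℂ F] [CompleteSpace F] {f : Vd (k + 1) → F} {y : Vd (k + 1)} (hf : AnalyticAt ℂ f y) (R : Submodule ℝ (Vd (k + 1)))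
    (h : ∀ᶠ z in 𝓝 y, z - y ∈ R → f z = 0) : ∀ᶠ z in 𝓝 y, z - y ∈ Submodule.span ℂ (R : Set (Vd (k + 1))) → f z = 0 := by
  classical
  set b := Module.finBasis ℝ R with hb
  set s := Module.finrank ℝ R with hs
  set V : Submodule ℂ (Vd (k + 1)) := Submodule.span ℂ (R : Set (Vd (k + 1))) with hV
  obtain ⟨T, hT⟩ : ∃ T : (Fin s → ℂ) →ₗ[ℂ] V, ∀ t, ((T t : V) : Vd (k + 1)) = ∑ i, t i • (b i : Vd (k + 1)) := by
    have hmem : ∀ t : Fin s → ℂ, ∑ i, t i • (b i : Vd (k + 1)) ∈ V := fun t =>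
      V.sum_mem fun i _ => V.smul_mem _ (Submodule.subset_span (b i).2)
    refine ⟨{ toFun := fun t => ⟨∑ i, t i • (b i : Vd (k + 1)), hmem t⟩, map_add' := ?_, map_smul' := ?_ }, fun t => rfl⟩
    · intro t t'
      ext1
      simp [add_smul, Finset.sum_add_distrib]
    · intro c t
      ext1
      simp [Finset.smul_sum, mul_smul]
  have hreal : ∀ t : Fin s → ℂ, (∀ i, (t i).im = 0) → ((T t : V) : Vd (k + 1)) ∈ R := by
    intro t ht
    rw [hT]
    refine R.sum_mem fun i _ => ?_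
    have h1 : t i = ((t i).re : ℂ) := Complex.ext (by simp) (by simp [ht i])
    rw [h1, Complex.coe_smul]
    exact R.smul_mem _ (b i).2
  have hsur : Function.Surjective T := by
    intro v
    obtain ⟨v, hv⟩ := v
    induction hv using Submodule.span_induction with
    | mem x hx =>
      have h1 : (⟨x, hx⟩ : R) = ∑ i, b.repr ⟨x, hx⟩ i • b i := (b.sum_repr _).symm
      refine ⟨fun i => ((b.repr ⟨x, hx⟩ i : ℝ) : ℂ), ?_⟩
      ext1
      rw [hT]
      have h2 := congrArg (fun v : R => (v : Vd (k + 1))) h1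
      simp only [Submodule.coe_sum, Submodule.coe_smul] at h2
      refine (Finset.sum_congr rfl fun i _ => ?_).trans h2.symm
      exact Complex.coe_smul _ _
    | zero => exact ⟨0, by rw [map_zero]; rfl⟩
    | add x y hx hy hx' hy' =>
      obtain ⟨t, ht⟩ := hx'
      obtain ⟨t', ht'⟩ := hy'
      exact ⟨t + t', by rw [map_add, ht, ht']; rfl⟩
    | smul c x hx hx' =>
      obtain ⟨t, ht⟩ := hx'
      exact ⟨c • t, by rw [map_smul, ht]; rfl⟩
  obtain ⟨S, hS⟩ := T.exists_rightInverse_of_surjective (LinearMap.range_eq_top.2 hsur)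
  set S' : V →L[ℂ] (Fin s → ℂ) := LinearMap.toContinuousLinearMap S with hS'
  have hTS : ∀ v : V, T (S' v) = v := fun v => by
    exact congrArg (fun L : V →ₗ[ℂ] V => L v) hS
  set T' : (Fin s → ℂ) →L[ℂ] Vd (k + 1) := LinearMap.toContinuousLinearMap (V.subtype ∘ₗ T) with hT'
  have hT'0 : ∀ t, T' t = ((T t : V) : Vd (k + 1)) := fun t => rfl
  -- the function of `t`
  have hg : AnalyticAt ℂ (fun t : Fin s → ℂ => f (y + T' t)) 0 := by
    have h1 : AnalyticAt ℂ (fun t : Fin s → ℂ => y + T' t) 0 := analyticAt_const.add (T'.analyticAt 0)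
    refine AnalyticAt.fun_comp (g := f) (f := fun t : Fin s → ℂ => y + T' t) ?_ h1
    simpa using hf
  have hcont : Tendsto (fun t : Fin s → ℂ => y + T' t) (𝓝 0) (𝓝 y) := by
    have h1 : Continuous fun t : Fin s → ℂ => y + T' t := by fun_prop
    have h2 := h1.tendsto (0 : Fin s → ℂ)
    simpa using h2
  have hz : ∀ᶠ t in 𝓝 (0 : Fin s → ℂ), f (y + T' t) = 0 := by
    refine zero_of_real hg ?_
    filter_upwards [hcont.eventually h] with t ht him
    refine ht ?_
    rw [add_sub_cancel_left, hT'0]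
    exact hreal t him
  obtain ⟨r, hr, hrb⟩ := Metric.eventually_nhds_iff_ball.1 hz
  have hC : 0 < ‖S'‖ + 1 := by positivity
  filter_upwards [ball_mem_nhds y (div_pos hr hC)] with z hzb hzV
  have h1 : S' ⟨z - y, hzV⟩ ∈ ball (0 : Fin s → ℂ) r := by
    rw [mem_ball_zero_iff]
    have h2 : ‖(⟨z - y, hzV⟩ : V)‖ = ‖z - y‖ := rfl
    calc ‖S' ⟨z - y, hzV⟩‖ ≤ ‖S'‖ * ‖(⟨z - y, hzV⟩ : V)‖ := S'.le_opNorm _
      _ ≤ (‖S'‖ + 1) * ‖z - y‖ := by
        rw [h2]
        exact mul_le_mul_of_nonneg_right (by linarith) (norm_nonneg _)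
      _ < (‖S'‖ + 1) * (r / (‖S'‖ + 1)) := by
        refine mul_lt_mul_of_pos_left ?_ hC
        rwa [mem_ball_iff_norm] at hzb
      _ = r := by field_simp
  have h3 := hrb _ h1
  rw [hT'0, hTS] at h3
  simpa using h3

/-- the analytic sets of the statement -/
def AnOff (D Z : Set (Vd (k + 1))) : Prop := ∀ y ∉ D, ∃ (m : ℕ) (β : Vd (k + 1) → Vd m), AnalyticAt ℂ β y ∧ ∀ᶠ z in 𝓝 y, (z ∈ Z ↔ β z = 0)

private theorem count_of_iso {S : Set ℂ} (h : ∀ z ∈ S, ∀ᶠ w in 𝓝[≠] z, w ∉ S) : S.Countable := by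
  have hd : DiscreteTopology S := by
    rw [discreteTopology_subtype_iff]
    intro z hz
    have h1 := h z hz
    rw [← disjoint_iff]
    rw [Filter.disjoint_principal_right]
    exact h1
  exact Set.countable_coe_iff.1 (TopologicalSpace.separableSpace_iff_countable.1 inferInstance)

/-- propagation along a line -/
theorem along {D Z : Set (Vd (k + 1))} (hDc : IsClosed D) (hZ : AnOff D Z) {a b : Vd (k + 1)} (hL : ∀ z : ℂ, ∀ᶠ w in 𝓝[≠] z, w • a + b ∉ D) {z₀ : ℂ} (hz₀D : z₀ • a + b ∉ D)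
    (hz₀ : ∃ᶠ w in 𝓝[≠] z₀, w • a + b ∈ Z) : ∀ z : ℂ, z • a + b ∉ D → z • a + b ∈ Z := by
  have hcont : Continuous fun z : ℂ => z • a + b := by fun_prop
  have hline : ∀ z : ℂ, AnalyticAt ℂ (fun z : ℂ => z • a + b) z := fun z => by fun_prop
  have hsD : Set.Countable {z : ℂ | z • a + b ∈ D} := count_of_iso fun z _ => hL z
  set W : Set ℂ := {z | z • a + b ∉ D ∧ ∀ᶠ w in 𝓝 z, w • a + b ∈ Z} with hW
  have hWo : IsOpen W := (hDc.isOpen_compl.preimage hcont).inter isOpen_setOfPred_eventually_nhds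
  have hz₀W : z₀ ∈ W := by
    refine ⟨hz₀D, ?_⟩
    obtain ⟨m, β, hβ, hβZ⟩ := hZ _ hz₀D
    have h1 : ∀ᶠ w in 𝓝 z₀, (w • a + b ∈ Z ↔ β (w • a + b) = 0) := hcont.continuousAt.eventually hβZ
    have hg : AnalyticAt ℂ (fun w : ℂ => β (w • a + b)) z₀ := AnalyticAt.fun_comp (g := β) (f := fun z : ℂ => z • a + b) hβ (hline z₀)
    have h2 : ∃ᶠ w in 𝓝[≠] z₀, β (w • a + b) = 0 := by
      refine (hz₀.and_eventually (h1.filter_mono nhdsWithin_le_nhds)).mono fun w hw => ?_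
      exact hw.2.1 hw.1
    have h3 := hg.frequently_zero_iff_eventually_zero.1 h2
    filter_upwards [h3, h1] with w hw1 hw2
    exact hw2.2 hw1
  have hUc : IsPreconnected {z : ℂ | z • a + b ∈ D}ᶜ :=
    (Set.Countable.isConnected_compl_of_one_lt_rank (E := ℂ) (by rw [Complex.rank_real_complex]; exact_mod_cast one_lt_two) hsD).isPreconnected
  have hUW : {z : ℂ | z • a + b ∈ D}ᶜ ⊆ W := by
    refine hUc.subset_of_closure_inter_subset hWo ⟨z₀, hz₀D, hz₀W⟩ ?_
    rintro z ⟨hzc, hzD⟩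
    obtain ⟨m, β, hβ, hβZ⟩ := hZ _ hzD
    have h1 : ∀ᶠ w in 𝓝 z, (w • a + b ∈ Z ↔ β (w • a + b) = 0) := hcont.continuousAt.eventually hβZ
    have hg : AnalyticAt ℂ (fun w : ℂ => β (w • a + b)) z := AnalyticAt.fun_comp (g := β) (f := fun z : ℂ => z • a + b) hβ (hline z)
    have h2 := mem_closure_iff_frequently.1 hzc
    rcases hg.eventually_eq_zero_or_eventually_ne_zero with h3 | h3
    · refine ⟨hzD, ?_⟩
      filter_upwards [h3, h1] with w hw1 hw2
      exact hw2.2 hw1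
    · rw [eventually_nhdsWithin_iff] at h3
      obtain ⟨w, hwW, hw1, hw2⟩ := (h2.and_eventually (h1.and h3)).exists
      have h4 : β (w • a + b) = 0 := hw1.1 hwW.2.self_of_nhds
      by_cases hwz : w = z
      · rw [← hwz]
        exact hwW
      · exact absurd h4 (hw2 hwz)
  exact fun z hz => (hUW hz).2.self_of_nhds

/-- real subspaces -/
theorem cx_span {D Z : Set (Vd (k + 1))} (hDc : IsClosed D) (hZ : AnOff D Z) (hL : LDi D) {b : Vd (k + 1)} {R : Submodule ℝ (Vd (k + 1))} (h : ∀ v ∈ R, b + v ∈ D ∪ Z) :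
    ∀ v ∈ Submodule.span ℂ (R : Set (Vd (k + 1))), b + v ∈ D ∪ Z := by
  intro v hv
  by_cases hvD : b + v ∈ D
  · exact Or.inl hvD
  -- a point of `b + R` outside `D`
  obtain ⟨r₀, hr₀, hr₀D⟩ : ∃ r ∈ R, b + r ∉ D := by
    by_contra hcon
    push Not at hcon
    by_cases hR : R = ⊥
    · have hv0 : v = 0 := by
        rw [hR] at hv
        have h1 : ((⊥ : Submodule ℝ (Vd (k + 1))) : Set (Vd (k + 1))) = {0} := rfl
        rw [h1, Submodule.span_zero_singleton] at hv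
        exact (Submodule.mem_bot ℂ).1 hv
      exact hvD (by rw [hv0]; exact hcon 0 R.zero_mem)
    · obtain ⟨r, hr, hr0⟩ := Submodule.exists_mem_ne_zero_of_ne_bot hR
      have h1 := hL r hr0 b 0
      obtain ⟨n, hn⟩ := (tend.eventually h1).exists
      refine hn ?_
      have h3 := hcon _ (R.smul_mem ((1 : ℝ) / ((n : ℝ) + 1)) hr)
      have e : b + ((1 : ℝ) / ((n : ℝ) + 1)) • r = (((1 : ℝ) / ((n : ℝ) + 1) : ℝ) : ℂ) • r + b := by
        rw [Complex.coe_smul]
        exact add_comm _ _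
      rw [← e]
      exact h3
  set V : Submodule ℂ (Vd (k + 1)) := Submodule.span ℂ (R : Set (Vd (k + 1))) with hV
  have hRV : ∀ r ∈ R, r ∈ V := fun r hr => Submodule.subset_span hr
  set y₁ := b + r₀ with hy₁
  obtain ⟨m, β, hβ, hβZ⟩ := hZ y₁ hr₀D
  have hDe : ∀ᶠ y in 𝓝 y₁, y ∉ D := hDc.isOpen_compl.mem_nhds hr₀D
  have hz : ∀ᶠ z in 𝓝 y₁, z - y₁ ∈ R → β z = 0 := by
    filter_upwards [hβZ, hDe] with z h1 h2 h3
    have h4 : z = b + (r₀ + (z - y₁)) := by
      rw [hy₁]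
      abel
    have h5 := h _ (R.add_mem hr₀ h3)
    rw [← h4] at h5
    exact h1.1 (h5.resolve_left h2)
  have hzV := span_zero hβ R hz
  have hnear : ∀ᶠ z in 𝓝 y₁, z - y₁ ∈ V → z ∈ Z := by
    filter_upwards [hzV, hβZ] with z h1 h2 h3
    exact h2.2 (h1 h3)
  set w := (b + v) - y₁ with hw
  have hwV : w ∈ V := by
    have h1 : w = v - r₀ := by rw [hw, hy₁]; abel
    rw [h1]
    exact V.sub_mem hv (hRV _ hr₀)
  by_cases hw0 : w = 0
  · right
    have h1 : b + v = y₁ := sub_eq_zero.1 hw0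
    rw [h1]
    exact hnear.self_of_nhds (by rw [sub_self]; exact V.zero_mem)
  · right
    have h1 := along hDc hZ (a := w) (b := y₁) (fun z => hL w hw0 y₁ z) (z₀ := 0) (by simpa using hr₀D) (by
      have h2 : Tendsto (fun z : ℂ => z • w + y₁) (𝓝 0) (𝓝 y₁) := by
        have h3 : Continuous fun z : ℂ => z • w + y₁ := by fun_prop
        simpa using h3.tendsto (0 : ℂ)
      have h4 : ∀ᶠ z in 𝓝 (0 : ℂ), z • w + y₁ ∈ Z := by
        filter_upwards [h2.eventually hnear] with z hz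
        exact hz (by rw [add_sub_cancel_right]; exact V.smul_mem _ hwV)
      exact (h4.filter_mono nhdsWithin_le_nhds).frequently) 1
    have h5 : (1 : ℂ) • w + y₁ = b + v := by
      rw [one_smul, hw]
      abel
    rw [h5] at h1
    exact h1 hvD

/-- closed subgroups of `ℂ^(k+1)` which contain `V` and no real line outside `V` -/
private theorem disc_mod (H : AddSubgroup (Vd (k + 1))) (hH : IsClosed (H : Set (Vd (k + 1)))) (V : Submodule ℂ (Vd (k + 1))) (hVH : ∀ v ∈ V, v ∈ H)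
    (hR : ∀ v : Vd (k + 1), (∀ t : ℝ, t • v ∈ H) → v ∈ V) (π : Vd (k + 1) →L[ℂ] Vd (k + 1)) (hπ : ∀ v, π v = 0 ↔ v ∈ V) (hπ2 : ∀ v, v - π v ∈ V) :
    ∃ ε : ℝ, 0 < ε ∧ ∀ h ∈ H, ‖π h‖ < ε → π h = 0 := by
  by_contra hcon
  push Not at hcon
  have h1 : ∀ n : ℕ, ∃ h ∈ H, ‖π h‖ < 1 / ((n : ℝ) + 1) ∧ π h ≠ 0 := fun n => hcon _ (by positivity)
  choose g hgH hgn hg0 using h1
  set c : ℕ → Vd (k + 1) := fun n => π (g n) with hc
  have hcH : ∀ n, c n ∈ H := by
    intro n
    have h2 : c n = g n - (g n - π (g n)) := by rw [hc]; abel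
    rw [h2]
    exact H.sub_mem (hgH n) (hVH _ (hπ2 _))
  have hcπ : ∀ n, π (c n) = c n := by
    intro n
    have h2 := (hπ _).2 (hπ2 (g n))
    rw [map_sub, sub_eq_zero] at h2
    exact h2.symm
  have hc0 : ∀ n, 0 < ‖c n‖ := fun n => norm_pos_iff.2 (hg0 n)
  -- a limit of the unit vectors
  set e : ℕ → Vd (k + 1) := fun n => (‖c n‖⁻¹ : ℝ) • c n with he
  have hes : ∀ n, e n ∈ sphere (0 : Vd (k + 1)) 1 := by
    intro n
    rw [mem_sphere_zero_iff_norm, he]
    simp only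
    rw [norm_smul, norm_inv, norm_norm, inv_mul_cancel₀ (hc0 n).ne']
  obtain ⟨v, hv, φ, hφ, hlim⟩ := (isCompact_sphere (0 : Vd (k + 1)) 1).tendsto_subseq hes
  have hclim : Tendsto (fun n => ‖c (φ n)‖) atTop (𝓝 0) := by
    have h2 : Tendsto (fun n => ‖c n‖) atTop (𝓝 0) :=
      squeeze_zero (fun n => norm_nonneg _) (fun n => (hgn n).le) (tendsto_one_div_add_atTop_nhds_zero_nat (𝕜 := ℝ))
    exact h2.comp hφ.tendsto_atTop
  have hvR : ∀ t : ℝ, t • v ∈ H := by
    intro t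
    have h2 : Tendsto (fun n => (⌊t / ‖c (φ n)‖⌋ : ℤ) • c (φ n)) atTop (𝓝 (t • v)) := by
      have h3 : ∀ n, (⌊t / ‖c (φ n)‖⌋ : ℤ) • c (φ n) = t • e (φ n) - (Int.fract (t / ‖c (φ n)‖) : ℝ) • c (φ n) := by
        intro n
        have h4 : t • e (φ n) = (t / ‖c (φ n)‖) • c (φ n) := by
          rw [he]
          simp only
          rw [smul_smul, div_eq_mul_inv]
        rw [h4, ← sub_smul, Int.self_sub_fract]
        exact (Int.cast_smul_eq_zsmul ℝ _ _).symm
      have h5 : Tendsto (fun n => (Int.fract (t / ‖c (φ n)‖) : ℝ) • c (φ n)) atTop (𝓝 0) := by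
        rw [tendsto_zero_iff_norm_tendsto_zero]
        refine squeeze_zero (fun n => norm_nonneg _) (fun n => ?_) hclim
        rw [norm_smul, Real.norm_of_nonneg (Int.fract_nonneg _)]
        have h6 := (Int.fract_lt_one (t / ‖c (φ n)‖)).le
        calc Int.fract (t / ‖c (φ n)‖) * ‖c (φ n)‖ ≤ 1 * ‖c (φ n)‖ := mul_le_mul_of_nonneg_right h6 (norm_nonneg _)
          _ = _ := one_mul _
      have h7 : Tendsto (fun n => t • e (φ n)) atTop (𝓝 (t • v)) := hlim.const_smul t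
      have h8 := h7.sub h5
      rw [sub_zero] at h8
      exact h8.congr fun n => (h3 n).symm
    exact hH.mem_of_tendsto h2 (Eventually.of_forall fun n => H.zsmul_mem (hcH _) _)
  have hvV := hR v hvR
  have h2 : π v = v := by
    have h3 : Tendsto (fun n => π (e (φ n))) atTop (𝓝 (π v)) := (π.continuous.tendsto v).comp hlim
    have h4 : ∀ n, π (e (φ n)) = e (φ n) := by
      intro n
      rw [he]
      simp only
      have h5 : π ((‖c (φ n)‖⁻¹ : ℝ) • c (φ n)) = (‖c (φ n)‖⁻¹ : ℝ) • π (c (φ n)) := (π.restrictScalars ℝ).map_smul _ _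
      rw [h5, hcπ]
    simp only [h4] at h3
    exact tendsto_nhds_unique h3 hlim
  have h3 : v = 0 := by
    rw [← h2]
    exact (hπ v).2 hvV
  rw [h3] at hv
  simp at hv

/-- a cocompact set of vectors spans -/
private theorem span_of_cpt {Λ : AddSubgroup (Vd (k + 1))} {V : Submodule ℂ (Vd (k + 1))} {R : ℝ} (h : ∀ v ∈ V, ∃ l ∈ Λ, l ∈ V ∧ ‖v - l‖ ≤ R) :
    Submodule.span ℝ ((Λ : Set (Vd (k + 1))) ∩ V) = V.restrictScalars ℝ := by
  refine le_antisymm ?_ ?_
  · rw [Submodule.span_le]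
    rintro l ⟨-, hl⟩
    exact hl
  · intro v hv
    by_contra hcon
    obtain ⟨φ, hφv, hφ⟩ := Submodule.exists_le_ker_of_notMem (K := ℝ) hcon
    set φ' : Vd (k + 1) →L[ℝ] ℝ := LinearMap.toContinuousLinearMap φ with hφ'
    have hR : 0 ≤ R := by
      obtain ⟨l, -, -, hl⟩ := h 0 V.zero_mem
      exact (norm_nonneg _).trans hl
    set t : ℝ := (‖φ'‖ * R + 1) / φ v with ht
    have htv : t • v ∈ V := V.smul_mem (t : ℂ) hv
    obtain ⟨l, hl, hlV, hlR⟩ := h _ htv
    have h1 : φ l = 0 := hφ (Submodule.subset_span ⟨hl, hlV⟩)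
    have h2 : φ' (t • v - l) = ‖φ'‖ * R + 1 := by
      have h3 : φ' (t • v - l) = t * φ v - φ l := by
        show φ (t • v - l) = _
        rw [map_sub, map_smul, smul_eq_mul]
      rw [h3, h1, sub_zero, ht, div_mul_cancel₀ _ hφv]
    have h3 := φ'.le_opNorm (t • v - l)
    rw [h2, Real.norm_of_nonneg (by positivity)] at h3
    have h4 : ‖φ'‖ * ‖t • v - l‖ ≤ ‖φ'‖ * R := mul_le_mul_of_nonneg_left hlR (norm_nonneg _)
    linarith

theorem no_line {Λ : AddSubgroup (Vd (k + 1))} (hΛ : Lat Λ) (hs : Simp Λ) {D Z : Set (Vd (k + 1))} (hDc : IsClosed D) (hDi : ∀ y ∈ D, ∀ l ∈ Λ, y + l ∈ D) (hL : LDi D)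
    (hZ : AnOff D Z) {M : ℕ} (hM : 1 ≤ M) (hp : ∀ y ∈ Z, ∀ l ∈ Λ, y + M • l ∈ Z) {a b : Vd (k + 1)} (ha : a ≠ 0) (h : ∀ z : ℂ, z • a + b ∈ D ∪ Z) :
    ∀ y ∉ D, y ∈ Z := by
  classical
  have hcl : IsClosed (D ∪ Z) := by
    rw [← isOpen_compl_iff, isOpen_iff_mem_nhds]
    intro y hy
    have hyD : y ∉ D := fun h => hy (Or.inl h)
    obtain ⟨m, β, hβ, hβZ⟩ := hZ y hyD
    have hβ0 : β y ≠ 0 := fun h => hy (Or.inr (hβZ.self_of_nhds.2 h))
    filter_upwards [hβZ, hβ.continuousAt.eventually_ne hβ0, hDc.isOpen_compl.mem_nhds hyD] with z h1 h2 h3 h4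
    rcases h4 with h4 | h4
    · exact h3 h4
    · exact h2 (h1.1 h4)
  have hinv : ∀ y ∈ D ∪ Z, ∀ l ∈ Λ, y + M • l ∈ D ∪ Z := by
    rintro y (hy | hy) l hl
    · exact Or.inl (hDi y hy _ (Λ.nsmul_mem hl M))
    · exact Or.inr (hp y hy l hl)
  -- the maximal subspace
  set 𝒱 : Set (Submodule ℂ (Vd (k + 1))) := {V | V ≠ ⊥ ∧ ∀ v ∈ V, b + v ∈ D ∪ Z} with h𝒱
  have hne : 𝒱.Nonempty := by
    refine ⟨Submodule.span ℂ {a}, ?_, ?_⟩
    · rwa [Ne, Submodule.span_singleton_eq_bot]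
    · intro v hv
      obtain ⟨z, rfl⟩ := Submodule.mem_span_singleton.1 hv
      have e : b + z • a = z • a + b := add_comm _ _
      rw [e]
      exact h z
  obtain ⟨V, ⟨hV0, hVb⟩, hmax⟩ := wellFounded_gt.has_min 𝒱 hne
  set Γ : AddSubgroup (Vd (k + 1)) := Λ.map (nsmulAddMonoidHom M) with hΓ
  set H : AddSubgroup (Vd (k + 1)) := (V.toAddSubgroup ⊔ Γ).topologicalClosure with hH
  have hHc : IsClosed (H : Set (Vd (k + 1))) := AddSubgroup.isClosed_topologicalClosure _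
  have hVH : ∀ v ∈ V, v ∈ H := fun v hv => AddSubgroup.le_topologicalClosure _ (AddSubgroup.mem_sup_left hv)
  have hbH : ∀ v ∈ H, b + v ∈ D ∪ Z := by
    intro v hv
    have h1 : IsClosed {v : Vd (k + 1) | b + v ∈ D ∪ Z} := hcl.preimage (by fun_prop)
    have h2 : ((V.toAddSubgroup ⊔ Γ : AddSubgroup (Vd (k + 1))) : Set (Vd (k + 1))) ⊆ {v : Vd (k + 1) | b + v ∈ D ∪ Z} := by
      intro w hw
      obtain ⟨v', hv', g, hg, rfl⟩ := AddSubgroup.mem_sup.1 hw
      obtain ⟨l, hl, rfl⟩ := hg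
      show b + (v' + M • l) ∈ D ∪ Z
      rw [← add_assoc]
      exact hinv _ (hVb _ hv') l hl
    exact closure_minimal h2 h1 hv
  -- the real subspace
  obtain ⟨R, hR⟩ : ∃ R : Submodule ℝ (Vd (k + 1)), ∀ v, v ∈ R ↔ ∀ t : ℝ, t • v ∈ H := by
    refine ⟨{ carrier := {v | ∀ t : ℝ, t • v ∈ H}, add_mem' := ?_, zero_mem' := ?_, smul_mem' := ?_ }, fun v => Iff.rfl⟩
    · intro v w hv hw t
      rw [smul_add]
      exact H.add_mem (hv t) (hw t)
    · intro t
      rw [smul_zero]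
      exact H.zero_mem
    · intro c v hv t
      rw [smul_smul]
      exact hv _
  have hVR : ∀ v ∈ V, v ∈ R := fun v hv => (hR v).2 fun t => hVH _ (V.smul_mem (t : ℂ) hv)
  have hRb : ∀ v ∈ R, b + v ∈ D ∪ Z := by
    intro v hv
    have h1 := (hR v).1 hv 1
    rw [one_smul] at h1
    exact hbH v h1
  have hspan := cx_span hDc hZ hL hRb
  have hVle : V ≤ Submodule.span ℂ (R : Set (Vd (k + 1))) := fun v hv => Submodule.subset_span (hVR v hv)
  have hVeq : V = Submodule.span ℂ (R : Set (Vd (k + 1))) := by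
    by_contra hcon
    have h1 : Submodule.span ℂ (R : Set (Vd (k + 1))) ∈ 𝒱 := by
      refine ⟨fun h0 => ?_, hspan⟩
      rw [h0] at hVle
      exact hV0 (le_bot_iff.1 hVle)
    exact hmax _ h1 (lt_of_le_of_ne hVle hcon)
  have hRV : ∀ v, (∀ t : ℝ, t • v ∈ H) → v ∈ V := by
    intro v hv
    rw [hVeq]
    exact Submodule.subset_span ((hR v).2 hv)
  -- the projection
  obtain ⟨C, hC⟩ := Submodule.exists_isCompl V
  obtain ⟨π, hπ, hπ2⟩ : ∃ π : Vd (k + 1) →L[ℂ] Vd (k + 1), (∀ v, π v = 0 ↔ v ∈ V) ∧ ∀ v, v - π v ∈ V := by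
    refine ⟨LinearMap.toContinuousLinearMap (C.subtype ∘ₗ Submodule.projectionOnto C V hC.symm), fun v => ?_, fun v => ?_⟩
    · show ((Submodule.projectionOnto C V hC.symm v : C) : Vd (k + 1)) = 0 ↔ v ∈ V
      rw [Submodule.coe_eq_zero, Submodule.projectionOnto_apply_eq_zero_iff]
    · show v - ((Submodule.projectionOnto C V hC.symm v : C) : Vd (k + 1)) ∈ V
      rw [← Submodule.projectionOnto_apply_eq_zero_iff hC.symm, map_sub, Submodule.projectionOnto_apply_left, sub_self]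
  obtain ⟨ε, hε, hdisc⟩ := disc_mod H hHc V hVH hRV π hπ hπ2
  -- finitely many values
  obtain ⟨R₀, hR₀, hcpt⟩ := hΛ.cpt
  have hM0 : (0 : ℝ) < M := by exact_mod_cast hM
  have hMl : ∀ l : Vd (k + 1), M • l = (M : ℝ) • l := fun l => (Nat.cast_smul_eq_nsmul ℝ M l).symm
  have hfin : Set.Finite {y : Vd (k + 1) | ‖y‖ ≤ ‖π‖ * (M * R₀) ∧ ∃ l ∈ Λ, π (M • l) = y} := by
    have hsep : ∀ l ∈ Λ, ∀ l' ∈ Λ, ‖π (M • l) - π (M • l')‖ < ε → π (M • l) = π (M • l') := by
      intro l hl l' hl' hlt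
      rw [← map_sub] at hlt
      have h1 : M • l - M • l' ∈ H := by
        refine AddSubgroup.le_topologicalClosure _ (AddSubgroup.mem_sup_right ?_)
        exact ⟨l - l', Λ.sub_mem hl hl', by simp [smul_sub]⟩
      have h2 := hdisc _ h1 hlt
      rw [map_sub, sub_eq_zero] at h2
      exact h2
    obtain ⟨t, ht, hcov⟩ := Metric.totallyBounded_iff.1 (isCompact_closedBall (0 : Vd (k + 1)) (‖π‖ * (M * R₀))).totallyBounded (ε / 2) (by positivity)
    have hsub : {y : Vd (k + 1) | ‖y‖ ≤ ‖π‖ * (M * R₀) ∧ ∃ l ∈ Λ, π (M • l) = y} ⊆ ⋃ c ∈ t, {y | y ∈ ball c (ε / 2) ∧ ∃ l ∈ Λ, π (M • l) = y} := by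
      rintro y ⟨hy, hyl⟩
      have h1 := hcov (mem_closedBall_zero_iff.2 hy)
      simp only [Set.mem_iUnion] at h1 ⊢
      obtain ⟨c, hc, hyc⟩ := h1
      exact ⟨c, hc, hyc, hyl⟩
    refine Set.Finite.subset (ht.biUnion fun c _ => Set.Subsingleton.finite ?_) hsub
    rintro y ⟨hy, l, hl, rfl⟩ y' ⟨hy', l', hl', rfl⟩
    refine hsep l hl l' hl' ?_
    rw [← dist_eq_norm]
    calc dist (π (M • l)) (π (M • l')) ≤ dist (π (M • l)) c + dist c (π (M • l')) := dist_triangle _ _ _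
      _ < ε / 2 + ε / 2 := by
        refine add_lt_add hy ?_
        rw [dist_comm]
        exact hy'
      _ = ε := by ring
  obtain ⟨K, hK⟩ : ∃ K : ℝ, ∀ l ∈ Λ, ‖π (M • l)‖ ≤ ‖π‖ * (M * R₀) → ∃ l' ∈ Λ, π (M • l') = π (M • l) ∧ ‖M • l'‖ ≤ K := by
    have h1 : ∀ y ∈ {y : Vd (k + 1) | ‖y‖ ≤ ‖π‖ * (M * R₀) ∧ ∃ l ∈ Λ, π (M • l) = y}, ∃ l ∈ Λ, π (M • l) = y := fun y hy => hy.2
    choose! f hf1 hf2 using h1
    obtain ⟨K, hK⟩ := (hfin.image fun y => ‖M • f y‖).bddAbove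
    refine ⟨K, fun l hl hln => ?_⟩
    have hmem : π (M • l) ∈ {y : Vd (k + 1) | ‖y‖ ≤ ‖π‖ * (M * R₀) ∧ ∃ l ∈ Λ, π (M • l) = y} := ⟨hln, l, hl, rfl⟩
    exact ⟨_, hf1 _ hmem, hf2 _ hmem, hK ⟨_, hmem, rfl⟩⟩
  have hVtop : V = ⊤ := by
    by_contra hVtop
    refine hs V hV0 hVtop (span_of_cpt (R := M * R₀ + K) ?_)
    intro v hv
    obtain ⟨l, hl, hln⟩ := hcpt ((M : ℝ)⁻¹ • v)
    have h1 : ‖v - M • l‖ ≤ M * R₀ := by
      have h2 : v - M • l = (M : ℝ) • ((M : ℝ)⁻¹ • v - l) := by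
        rw [smul_sub, smul_smul, mul_inv_cancel₀ hM0.ne', one_smul, hMl]
      rw [h2, norm_smul, Real.norm_of_nonneg hM0.le]
      exact mul_le_mul_of_nonneg_left hln hM0.le
    have h2 : ‖π (M • l)‖ ≤ ‖π‖ * (M * R₀) := by
      have h3 : π (M • l) = -π (v - M • l) := by
        rw [map_sub, (hπ v).2 hv, zero_sub, neg_neg]
      rw [h3, norm_neg]
      exact (π.le_opNorm _).trans (mul_le_mul_of_nonneg_left h1 (norm_nonneg _))
    obtain ⟨l', hl', hl'π, hl'K⟩ := hK l hl h2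
    refine ⟨M • l - M • l', Λ.sub_mem (Λ.nsmul_mem hl M) (Λ.nsmul_mem hl' M), ?_, ?_⟩
    · rw [← hπ, map_sub, hl'π, sub_self]
    · have h3 : v - (M • l - M • l') = (v - M • l) + M • l' := by abel
      rw [h3]
      exact (norm_add_le _ _).trans (add_le_add h1 hl'K)
  intro y hy
  have h1 := hVb (y - b) (by rw [hVtop]; exact Submodule.mem_top)
  rw [add_sub_cancel] at h1
  exact h1.resolve_left hy

/-- a proper invariant analytic set meets every line in isolated points -/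
theorem ldi_of {Λ : AddSubgroup (Vd (k + 1))} (hΛ : Lat Λ) (hs : Simp Λ) {D : Set (Vd (k + 1))} (hD : AnOff ∅ D) (hDi : ∀ y ∈ D, ∀ l ∈ Λ, y + l ∈ D) {y₀ : Vd (k + 1)} (hy₀ : y₀ ∉ D) :
    LDi D := by
  intro a ha b z
  by_contra hcon
  have hL0 : LDi (∅ : Set (Vd (k + 1))) := fun _ _ _ _ => Eventually.of_forall fun _ h => h
  have h1 : ∃ᶠ w in 𝓝[≠] z, w • a + b ∈ D := by
    intro h2
    exact hcon h2
  have h3 := along isClosed_empty hD (fun z => hL0 a ha b z) (z₀ := z) (fun h => h) h1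
  have h4 := no_line hΛ hs isClosed_empty (fun y hy => hy.elim) hL0 hD (M := 1) le_rfl (fun y hy l hl => by rw [one_smul]; exact hDi y hy l hl) ha
    (fun w => Or.inr (h3 w fun h => h))
  exact hy₀ (h4 y₀ fun h => h)

/-- another form of the condition -/
theorem simp_of_span {Λ : AddSubgroup (Vd (k + 1))}
    (h : ∀ W : Submodule ℂ (Vd (k + 1)), W ≠ ⊥ → (∀ v ∈ W, v ∈ Submodule.span ℝ {l : Vd (k + 1) | l ∈ Λ ∧ l ∈ W}) → W = ⊤) : Simp Λ := by
  intro V h0 h1 h2
  refine h1 (h V h0 fun v hv => ?_)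
  have h3 : v ∈ V.restrictScalars ℝ := hv
  rw [← h2] at h3
  exact h3

end Pool.Agent.G4
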